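import Pool.Agent.Helper14_DK.Stmts

/-!
# Module ROUND: iteration of STEP
-/

set_option autoImplicit false

namespace Pool.Agent.DK.H43

open MeasureTheory Complex Set Metric Filter Pool.Agent.DK
open scoped ContDiff Topology

variable {n : ℕ}

theorem wdb_mono {D D' : Set (E n)} {u : E n → ℂ} {α : Fin n → E n → ℂ} (h : WDb D' u α)
    (hD : D ⊆ D') : WDb D u α := fun j ψ hψ => h j ψ (hψ.mono hD)

theorem wcl_mono {D D' : Set (E n)} {α : Fin n → E n → ℂ} (h : WCl D' α)
    (hD : D ⊆ D') : WCl D α := fun j k ψ hψ => h j k ψ (hψ.mono hD)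

theorem mul_ind {D : Set (E n)} {f ψ : E n → ℂ} (hψ : ∀ z ∉ D, ψ z = 0) :
    (fun z => D.indicator f z * ψ z) = fun z => f z * ψ z := by
  funext z
  by_cases hz : z ∈ D
  · rw [indicator_of_mem hz]
  · rw [hψ z hz, mul_zero, mul_zero]

theorem nsq_cont : Continuous (nsq : E n → ℝ) := by
  unfold nsq; fun_prop

theorem nsq_nonneg (z : E n) : 0 ≤ nsq z := Finset.sum_nonneg fun _ _ => by positivity

theorem int_exp {D : Set (E n)} {f : E n → ℝ} {t : ℝ} (ht : 0 ≤ t)
    (hf : IntegrableOn f D) : IntegrableOn (fun z => f z * Real.exp (-(t * nsq z))) D := by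
  refine hf.mul_bdd (c := 1) ?_ ?_
  · have : Continuous fun z : E n => Real.exp (-(t * nsq z)) := by
      have := nsq_cont (n := n)
      fun_prop
    exact this.aestronglyMeasurable
  · refine Eventually.of_forall fun z => ?_
    rw [Real.norm_eq_abs, abs_of_pos (Real.exp_pos _)]
    apply Real.exp_le_one_iff.2
    have := mul_nonneg ht (nsq_nonneg z)
    linarith

theorem int_sq {f : E n → ℂ} (hf : MemLp f 2 volume) : Integrable fun z => ‖f z‖ ^ 2 := by
  have := hf.integrable_norm_pow (p := 2) (by norm_num)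
  simpa using this

theorem int_sum {α : Fin n → E n → ℂ} (h : ∀ j, MemLp (α j) 2 volume) :
    Integrable fun z => ∑ j, ‖α j z‖ ^ 2 := integrable_finset_sum _ fun j _ => int_sq (h j)

/-- iteration -/
theorem iter {ρ : E n → ℝ} {b C t κ : ℝ} (hC : 0 < C) (ht : 0 < t) (hb : 0 < b) (hκ : 0 < κ)
    (hρ : Continuous ρ)
    (hstep : ∀ κ' : ℝ, 0 < κ' → κ' ≤ κ → ∀ α : Fin n → E n → ℂ,
      (∀ j, MemLp (α j) 2 volume) → WCl {z | ρ z < κ'} α →
      ∃ (u : E n → ℂ) (α' : Fin n → E n → ℂ), MemLp u 2 volume ∧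
        (∀ j, MemLp (α' j) 2 volume) ∧
        WDb {z | ρ z < κ' * Real.exp (-(b / t))} u (fun j z => α j z - α' j z) ∧
        WCl {z | ρ z < κ' * Real.exp (-(b / t))} α' ∧
        N2s {z | ρ z < κ' * Real.exp (-(b / t))} t u ≤ C * N2 {z | ρ z < κ'} t α ∧
        N2 {z | ρ z < κ' * Real.exp (-(b / t))} t α' ≤
          Real.exp (-1) * N2 {z | ρ z < κ'} t α) (α : Fin n → E n → ℂ)
    (hα : ∀ j, MemLp (α j) 2 volume) (hcl : WCl {z | ρ z < κ} α) (N : ℕ) :
    ∃ (u : E n → ℂ) (α' : Fin n → E n → ℂ), MemLp u 2 volume ∧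
        (∀ j, MemLp (α' j) 2 volume) ∧
        WDb {z | ρ z < κ * Real.exp (-(b / t)) ^ N} u (fun j z => α j z - α' j z) ∧
        WCl {z | ρ z < κ * Real.exp (-(b / t)) ^ N} α' ∧
        N2s {z | ρ z < κ * Real.exp (-(b / t)) ^ N} t u ≤
          2 * C * (2 ^ N - 1) * N2 {z | ρ z < κ} t α ∧
        N2 {z | ρ z < κ * Real.exp (-(b / t)) ^ N} t α' ≤
          Real.exp (-1) ^ N * N2 {z | ρ z < κ} t α := by
  set q := Real.exp (-(b / t)) with hq
  have hq0 : 0 < q := Real.exp_pos _
  have hq1 : q ≤ 1 := Real.exp_le_one_iff.2 (by have := div_pos hb ht; linarith)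
  have hN2 : 0 ≤ N2 {z | ρ z < κ} t α := by
    unfold N2
    refine setIntegral_nonneg (hρ.measurable measurableSet_Iio) fun z _ => ?_
    have : 0 ≤ ∑ j, ‖α j z‖ ^ 2 := Finset.sum_nonneg fun _ _ => by positivity
    positivity
  induction N with
  | zero =>
    refine ⟨fun _ => 0, α, MemLp.zero', hα, ?_, ?_, ?_, ?_⟩
    · intro j ψ _
      simp
    · simpa using hcl
    · simp [N2s]
    · simp
  | succ N ih =>
    obtain ⟨u, α1, hu, hα1, h1, h2, h3, h4⟩ := ih
    have hqN : q ^ N ≤ 1 := pow_le_one₀ hq0.le hq1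
    obtain ⟨v, α2, hv, hα2, g1, g2, g3, g4⟩ := hstep (κ * q ^ N) (by positivity)
      (by nlinarith) α1 hα1 h2
    have e : κ * q ^ N * q = κ * q ^ (N + 1) := by ring
    rw [e] at g1 g2 g3 g4
    have hsub : {z : E n | ρ z < κ * q ^ (N + 1)} ⊆ {z | ρ z < κ * q ^ N} := by
      intro z hz
      simp only [mem_setOf_eq] at hz ⊢
      refine lt_of_lt_of_le hz ?_
      rw [← e]
      have : 0 < κ * q ^ N := by positivity
      nlinarith
    have hms : ∀ c : ℝ, MeasurableSet {z : E n | ρ z < c} := fun c =>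
      hρ.measurable measurableSet_Iio
    refine ⟨fun z => u z + v z, α2, hu.add hv, hα2, ?_, g2, ?_, ?_⟩
    · intro j ψ hψ
      have a1 := h1 j ψ (hψ.mono hsub)
      have a2 := g1 j ψ hψ
      have i1 : Integrable fun z => u z * dbar j ψ z := integrable_mul_test' hu (hψ.dbar j)
      have i2 : Integrable fun z => v z * dbar j ψ z := integrable_mul_test' hv (hψ.dbar j)
      have i3 : Integrable fun z => (α j z - α1 j z) * ψ z :=
        integrable_mul_test' ((hα j).sub (hα1 j)) hψ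
      have i4 : Integrable fun z => (α1 j z - α2 j z) * ψ z :=
        integrable_mul_test' ((hα1 j).sub (hα2 j)) hψ
      have e1 : (fun z => (u z + v z) * dbar j ψ z) =
          fun z => u z * dbar j ψ z + v z * dbar j ψ z := by funext z; ring
      have e2 : (fun z => (α j z - α2 j z) * ψ z) =
          fun z => (α j z - α1 j z) * ψ z + (α1 j z - α2 j z) * ψ z := by funext z; ring
      rw [e1, e2, integral_add i1 i2, integral_add i3 i4, a1, a2]
      ring
    · have i1 : IntegrableOn (fun z => ‖u z‖ ^ 2 * Real.exp (-(t * nsq z)))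
          {z | ρ z < κ * q ^ (N + 1)} := int_exp ht.le (int_sq hu).integrableOn
      have i1' : IntegrableOn (fun z => ‖u z‖ ^ 2 * Real.exp (-(t * nsq z)))
          {z | ρ z < κ * q ^ N} := int_exp ht.le (int_sq hu).integrableOn
      have i2 : IntegrableOn (fun z => ‖v z‖ ^ 2 * Real.exp (-(t * nsq z)))
          {z | ρ z < κ * q ^ (N + 1)} := int_exp ht.le (int_sq hv).integrableOn
      have b1 : N2s {z | ρ z < κ * q ^ (N + 1)} t (fun z => u z + v z) ≤
          2 * N2s {z | ρ z < κ * q ^ (N + 1)} t u + 2 * N2s {z | ρ z < κ * q ^ (N + 1)} t v := by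
        unfold N2s
        rw [← integral_const_mul, ← integral_const_mul,
          ← integral_add (i1.const_mul 2) (i2.const_mul 2)]
        refine setIntegral_mono (int_exp ht.le (int_sq (hu.add hv)).integrableOn)
          ((i1.const_mul 2).add (i2.const_mul 2)) fun z => ?_
        have hp := Real.exp_pos (-(t * nsq z))
        have hs : ‖u z + v z‖ ^ 2 ≤ 2 * ‖u z‖ ^ 2 + 2 * ‖v z‖ ^ 2 := by
          have h0 := norm_add_le (u z) (v z)
          have h00 := norm_nonneg (u z + v z)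
          nlinarith [sq_nonneg (‖u z‖ - ‖v z‖)]
        calc ‖u z + v z‖ ^ 2 * Real.exp (-(t * nsq z))
            ≤ (2 * ‖u z‖ ^ 2 + 2 * ‖v z‖ ^ 2) * Real.exp (-(t * nsq z)) := by gcongr
          _ = _ := by ring
      have b2 : N2s {z | ρ z < κ * q ^ (N + 1)} t u ≤ N2s {z | ρ z < κ * q ^ N} t u := by
        unfold N2s
        refine setIntegral_mono_set i1' ?_ hsub.eventuallyLE
        exact Eventually.of_forall fun z => by positivity
      have hc : Real.exp (-1) ^ N ≤ 1 := pow_le_one₀ (Real.exp_pos _).le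
        (Real.exp_le_one_iff.2 (by norm_num))
      have b3 : C * N2 {z | ρ z < κ * q ^ N} t α1 ≤ C * N2 {z | ρ z < κ} t α := by
        refine mul_le_mul_of_nonneg_left (h4.trans ?_) hC.le
        nlinarith
      have : (2 : ℝ) ^ (N + 1) = 2 * 2 ^ N := by ring
      rw [this]
      nlinarith
    · refine g4.trans ?_
      have := mul_le_mul_of_nonneg_left h4 (Real.exp_pos (-1)).le
      refine this.trans (le_of_eq ?_)
      ring

theorem round (hS : StepStmt) : RoundStmt := by
  intro n hn ρ κ₀ hN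
  obtain ⟨b, C, t₀, κ₁, hb, hC, ht₀, hκ₁, hκ₁₀, hstep⟩ := hS n hn ρ κ₀ hN
  have hρ : Continuous ρ := hN.smooth.continuous
  obtain ⟨Q, hQ0, hQ⟩ : ∃ Q : ℝ, 0 ≤ Q ∧ ∀ z : E n, ρ z < κ₀ → nsq z ≤ Q := by
    obtain ⟨Q, hQ⟩ := (hN.cpt.isCompact.image nsq_cont).bddAbove
    refine ⟨max Q 0, le_max_right _ _, fun z hz => le_max_of_le_left (hQ ⟨z, ?_, rfl⟩)⟩
    apply subset_tsupport
    simp only [Function.mem_support, ne_eq]
    have := hN.lt_one
    intro h
    linarith
  set B : ℝ := Q + 1 with hB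
  have hB0 : 0 < B := by positivity
  have hθ0 : 0 < b * (B + 1) := by positivity
  refine ⟨Real.exp (-(b * (B + 1))), Q + 2 * C + B + 1, t₀, κ₁, Real.exp_pos _,
    (Real.exp_lt_one_iff.2 (by linarith)), by positivity, ht₀, hκ₁, hκ₁₀, ?_⟩
  intro κ t hκ hκκ ht α hα hcl
  have ht1 : 1 ≤ t := ht₀.trans ht
  have ht0 : 0 < t := by linarith
  obtain ⟨u, α', hu, hα', h1, h2, h3, h4⟩ := iter hC ht0 hb hκ hρ
    (fun κ' h h' α hα hcl => hstep κ' t h (h'.trans hκκ) ht α hα hcl) α hα hcl ⌈B * t⌉₊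
  set N := ⌈B * t⌉₊ with hNN
  have hN1 : B * t ≤ N := Nat.le_ceil _
  have hN2 : (N : ℝ) ≤ B * t + 1 := (Nat.ceil_lt_add_one (by positivity)).le
  set θ := Real.exp (-(b * (B + 1))) with hθ
  have hsub : {z : E n | ρ z < θ * κ} ⊆ {z | ρ z < κ * Real.exp (-(b / t)) ^ N} := by
    intro z hz
    simp only [mem_setOf_eq] at hz ⊢
    refine lt_of_lt_of_le hz ?_
    rw [mul_comm, hθ, ← Real.exp_nat_mul]
    refine mul_le_mul_of_nonneg_left (Real.exp_le_exp.2 ?_) hκ.le
    have : (N : ℝ) * (b / t) ≤ b * (B + 1) := by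
      calc (N : ℝ) * (b / t) ≤ (B * t + 1) * (b / t) := by gcongr
        _ = b * (B + 1 / t) := by field_simp
        _ ≤ b * (B + 1) := by
            have : 1 / t ≤ 1 := by
              rw [div_le_one ht0]; exact ht1
            gcongr
    linarith
  have hms : MeasurableSet {z : E n | ρ z < θ * κ} := hρ.measurable measurableSet_Iio
  have hmsκ : MeasurableSet {z : E n | ρ z < κ} := hρ.measurable measurableSet_Iio
  have hmsN : MeasurableSet {z : E n | ρ z < κ * Real.exp (-(b / t)) ^ N} :=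
    hρ.measurable measurableSet_Iio
  have hθ1 : θ ≤ 1 := Real.exp_le_one_iff.2 (by linarith)
  have hQ' : ∀ z : E n, ρ z < θ * κ → nsq z ≤ Q := fun z hz => hQ z (by nlinarith)
  -- comparison of norms
  have hcomp : N2 {z | ρ z < κ} t α ≤ ∫ z in {z | ρ z < κ}, ∑ j, ‖α j z‖ ^ 2 := by
    unfold N2
    refine setIntegral_mono (int_exp ht0.le (int_sum hα).integrableOn)
      (int_sum hα).integrableOn fun z => ?_
    have h1 : Real.exp (-(t * nsq z)) ≤ 1 := by
      apply Real.exp_le_one_iff.2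
      have := mul_nonneg ht0.le (nsq_nonneg z)
      linarith
    have h2 : 0 ≤ ∑ j, ‖α j z‖ ^ 2 := Finset.sum_nonneg fun _ _ => by positivity
    exact mul_le_of_le_one_right h2 h1
  have hI0 : 0 ≤ ∫ z in {z | ρ z < κ}, ∑ j, ‖α j z‖ ^ 2 :=
    setIntegral_nonneg hmsκ fun z _ => Finset.sum_nonneg fun _ _ => by positivity
  have hlow : ∀ f : E n → ℝ, (∀ z, 0 ≤ f z) → Integrable f →
      ∫ z in {z | ρ z < θ * κ}, f z ≤ Real.exp (t * Q) *
        ∫ z in {z | ρ z < κ * Real.exp (-(b / t)) ^ N}, f z * Real.exp (-(t * nsq z)) := by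
    intro f hf hfi
    rw [← integral_const_mul]
    have i1 : IntegrableOn (fun z => Real.exp (t * Q) * (f z * Real.exp (-(t * nsq z))))
        {z | ρ z < κ * Real.exp (-(b / t)) ^ N} :=
      (int_exp ht0.le hfi.integrableOn).const_mul _
    have i2 : ∫ z in {z | ρ z < θ * κ}, Real.exp (t * Q) * (f z * Real.exp (-(t * nsq z))) ≤
        ∫ z in {z | ρ z < κ * Real.exp (-(b / t)) ^ N},
          Real.exp (t * Q) * (f z * Real.exp (-(t * nsq z))) := by
      refine setIntegral_mono_set i1 ?_ hsub.eventuallyLE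
      exact Eventually.of_forall fun z => by have := hf z; positivity
    refine le_trans ?_ i2
    refine setIntegral_mono_on hfi.integrableOn (i1.mono_set hsub) hms fun z hz => ?_
    have h1 := hQ' z hz
    have h2 : 1 ≤ Real.exp (t * Q) * Real.exp (-(t * nsq z)) := by
      rw [← Real.exp_add]
      apply Real.one_le_exp
      have := mul_le_mul_of_nonneg_left h1 ht0.le
      linarith
    have h3 := hf z
    nlinarith
  refine ⟨{z | ρ z < θ * κ}.indicator u, fun j => {z | ρ z < θ * κ}.indicator (α' j),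
    hu.indicator hms, fun j => (hα' j).indicator hms, ?_, ?_, ?_, ?_, ?_⟩
  · intro z hz
    have : z ∉ {z | ρ z < θ * κ} := by simpa using hz
    exact ⟨indicator_of_notMem this _, fun j => indicator_of_notMem this _⟩
  · intro j ψ hψ
    have h := h1 j ψ (hψ.mono hsub)
    rw [mul_ind (fun z hz => (hψ.dbar j).zero_of_notMem hz), h]
    congr 1
    refine integral_congr_ae (Eventually.of_forall fun z => ?_)
    by_cases hz : z ∈ {z | ρ z < θ * κ}
    · simp only [indicator_of_mem hz]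
    · simp only [hψ.zero_of_notMem hz, mul_zero]
  · intro j k ψ hψ
    have h := h2 j k ψ (hψ.mono hsub)
    rw [mul_ind (fun z hz => (hψ.dbar k).zero_of_notMem hz),
      mul_ind (fun z hz => (hψ.dbar j).zero_of_notMem hz), h]
  · have e1 : ∫ z, ‖{z | ρ z < θ * κ}.indicator u z‖ ^ 2 =
        ∫ z in {z | ρ z < θ * κ}, ‖u z‖ ^ 2 := by
      rw [← integral_indicator hms]
      refine integral_congr_ae (Eventually.of_forall fun z => ?_)
      by_cases hz : z ∈ {z | ρ z < θ * κ}
      · simp only [indicator_of_mem hz]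
      · simp only [indicator_of_notMem hz]; simp
    rw [e1]
    refine (hlow (fun z => ‖u z‖ ^ 2) (fun z => by positivity) (int_sq hu)).trans ?_
    have h5 : 2 * C * ((2 : ℝ) ^ N - 1) ≤ Real.exp (2 * C) * Real.exp N := by
      have a1 : 2 * C ≤ Real.exp (2 * C) := by
        have := Real.add_one_le_exp (2 * C)
        linarith
      have a2 : (2 : ℝ) ^ N - 1 ≤ Real.exp N := by
        have : (2 : ℝ) ^ N ≤ Real.exp N := by
          rw [← Real.exp_one_pow]
          exact pow_le_pow_left₀ (by norm_num) (by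
            have := Real.add_one_le_exp (1 : ℝ)
            linarith) N
        linarith
      have a3 : 0 ≤ (2 : ℝ) ^ N - 1 := by
        have : (1 : ℝ) ≤ 2 ^ N := one_le_pow₀ (by norm_num)
        linarith
      calc 2 * C * ((2 : ℝ) ^ N - 1) ≤ Real.exp (2 * C) * ((2 : ℝ) ^ N - 1) := by gcongr
        _ ≤ _ := by gcongr
    have h6 : N2s {z | ρ z < κ * Real.exp (-(b / t)) ^ N} t u ≤
        Real.exp (2 * C) * Real.exp N * ∫ z in {z | ρ z < κ}, ∑ j, ‖α j z‖ ^ 2 := by
      refine h3.trans ?_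
      have h7 : 0 ≤ N2 {z | ρ z < κ} t α := by
        unfold N2
        refine setIntegral_nonneg hmsκ fun z _ => ?_
        have : 0 ≤ ∑ j, ‖α j z‖ ^ 2 := Finset.sum_nonneg fun _ _ => by positivity
        positivity
      calc _ ≤ Real.exp (2 * C) * Real.exp N * N2 {z | ρ z < κ} t α := by gcongr
        _ ≤ _ := by gcongr
    calc Real.exp (t * Q) * ∫ z in {z | ρ z < κ * Real.exp (-(b / t)) ^ N},
          ‖u z‖ ^ 2 * Real.exp (-(t * nsq z))
        ≤ Real.exp (t * Q) * (Real.exp (2 * C) * Real.exp N *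
          ∫ z in {z | ρ z < κ}, ∑ j, ‖α j z‖ ^ 2) := by
          exact mul_le_mul_of_nonneg_left h6 (Real.exp_pos _).le
      _ = Real.exp (t * Q + 2 * C + N) * ∫ z in {z | ρ z < κ}, ∑ j, ‖α j z‖ ^ 2 := by
          rw [Real.exp_add, Real.exp_add]; ring
      _ ≤ _ := by
          refine mul_le_mul_of_nonneg_right (Real.exp_le_exp.2 ?_) hI0
          nlinarith
  · have e1 : ∫ z, ∑ j, ‖{z | ρ z < θ * κ}.indicator (α' j) z‖ ^ 2 =
        ∫ z in {z | ρ z < θ * κ}, ∑ j, ‖α' j z‖ ^ 2 := by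
      rw [← integral_indicator hms]
      refine integral_congr_ae (Eventually.of_forall fun z => ?_)
      by_cases hz : z ∈ {z | ρ z < θ * κ}
      · simp only [indicator_of_mem hz]
      · simp only [indicator_of_notMem hz]; simp
    rw [e1]
    refine (hlow (fun z => ∑ j, ‖α' j z‖ ^ 2)
      (fun z => Finset.sum_nonneg fun _ _ => by positivity) (int_sum hα')).trans ?_
    calc Real.exp (t * Q) * ∫ z in {z | ρ z < κ * Real.exp (-(b / t)) ^ N},
          (∑ j, ‖α' j z‖ ^ 2) * Real.exp (-(t * nsq z))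
        ≤ Real.exp (t * Q) * (Real.exp (-1) ^ N * N2 {z | ρ z < κ} t α) :=
          mul_le_mul_of_nonneg_left h4 (Real.exp_pos _).le
      _ ≤ Real.exp (t * Q) * (Real.exp (-1) ^ N *
            ∫ z in {z | ρ z < κ}, ∑ j, ‖α j z‖ ^ 2) := by gcongr
      _ = Real.exp (t * Q - N) * ∫ z in {z | ρ z < κ}, ∑ j, ‖α j z‖ ^ 2 := by
          rw [← Real.exp_nat_mul, ← mul_assoc, ← Real.exp_add]
          congr 2
          ring
      _ ≤ _ := by
          refine mul_le_mul_of_nonneg_right (Real.exp_le_exp.2 ?_) hI0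
          nlinarith

end Pool.Agent.DK.H43
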