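import Pool.Agent.Helper14_DK.Stmts

/-!
# Module SUM: summation of the telescoping series
-/

set_option autoImplicit false

namespace Pool.Agent.DK.H43

open MeasureTheory Complex Set Metric Filter Pool.Agent.DK
open scoped ContDiff Topology

/-- a function with vanishing `∂̄` is complex differentiable -/
theorem holo_of_dbar {n : ℕ} {g : E n → ℂ} {z : E n} (hg : DifferentiableAt ℝ g z)
    (h : ∀ i, dbar i g z = 0) : DifferentiableAt ℂ g z := by
  have key : ∀ (v : E n), fderiv ℝ g z (I • v) = I * fderiv ℝ g z v := by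
    have h1 : ∀ (j : Fin n), fderiv ℝ g z (Pi.single j I) = I * fderiv ℝ g z (Pi.single j 1) := by
      intro j
      have := h j
      unfold dbar at this
      have h2 : fderiv ℝ g z (Pi.single j 1) + I * fderiv ℝ g z (Pi.single j I) = 0 := by
        linear_combination 2 * this
      have h3 : I * (fderiv ℝ g z (Pi.single j 1) + I * fderiv ℝ g z (Pi.single j I)) = 0 := by
        rw [h2, mul_zero]
      have h4 : I * I = -1 := I_mul_I
      linear_combination -h3 + fderiv ℝ g z (Pi.single j I) * h4
    have h5 : ∀ (j : Fin n) (a : ℂ),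
        fderiv ℝ g z (Pi.single j a) = a * fderiv ℝ g z (Pi.single j 1) := by
      intro j a
      have e : (Pi.single j a : E n) = a.re • (Pi.single j (1 : ℂ) : E n) +
          a.im • (Pi.single j I : E n) := by
        rw [← Pi.single_smul, ← Pi.single_smul, ← Pi.single_add]
        congr 1
        simp [Complex.re_add_im]
      rw [e, map_add, map_smul, map_smul, h1 j]
      have : a = a.re + a.im * I := (Complex.re_add_im a).symm
      conv_rhs => rw [this]
      simp only [Complex.real_smul]
      ring
    intro v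
    have e1 : v = ∑ j, (Pi.single j (v j) : E n) := (Finset.univ_sum_single v).symm
    have e2 : I • v = ∑ j, (Pi.single j (I * v j) : E n) := by
      rw [← Finset.univ_sum_single (I • v)]
      rfl
    rw [e2, map_sum]
    conv_rhs => rw [e1, map_sum, Finset.mul_sum]
    refine Finset.sum_congr rfl fun j _ => ?_
    rw [h5 j (I * v j), h5 j (v j)]
    ring
  rw [differentiableAt_iff_restrictScalars ℝ hg]
  refine ⟨{ toFun := fun v => fderiv ℝ g z v
            map_add' := fun a b => map_add _ a b
            map_smul' := ?_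
            cont := (fderiv ℝ g z).cont }, ?_⟩
  · intro c v
    simp only [RingHom.id_apply, smul_eq_mul]
    have e : c • v = c.re • v + c.im • (I • v) := by
      funext j
      simp only [Pi.add_apply, Pi.smul_apply, smul_eq_mul, Complex.real_smul]
      conv_lhs => rw [← Complex.re_add_im c]
      ring
    rw [e, map_add, map_smul, map_smul, key v]
    conv_rhs => rw [← Complex.re_add_im c]
    simp only [Complex.real_smul]
    ring
  · ext v
    rfl

theorem sum (hC : CutfStmt) : SumStmt := by
  intro n hn ρ κ₀ hN κ θ hκ hκ₀ hθ hθ1 G ε hG hε hS hd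
  by_cases hne : ∃ z₀ : E n, ρ z₀ < 0
  swap
  · refine ⟨fun _ => 0, contDiff_const, ?_, ?_⟩
    · intro z hz
      exact absurd ⟨z, hz⟩ hne
    · intro l z hz
      exact absurd ⟨z, hz⟩ hne
  obtain ⟨z₀, hz₀⟩ := hne
  have hκm : ∀ m : ℕ, 0 < θ ^ m * κ := fun m => by positivity
  have hκm0 : ∀ m : ℕ, θ ^ m * κ ≤ κ₀ := fun m => by
    have : θ ^ m ≤ 1 := pow_le_one₀ hθ.le hθ1.le
    nlinarith
  have hε0 : ∀ m l, 0 ≤ ε m l := fun m l => by
    refine le_trans (norm_nonneg _) (hε m l z₀ ?_)
    have := hκm m
    linarith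
  obtain ⟨C, hC⟩ := hC n hn ρ κ₀ hN
  choose ζ hζs hζ1 hζ0 hζb using fun m : ℕ => hC (θ ^ m * κ) (hκm m) (hκm0 m)
  have hC0 : ∀ l, 0 ≤ C l := by
    intro l
    have h := (norm_nonneg _).trans (hζb 0 l z₀)
    have h2 : 0 < ((θ ^ 0 * κ)⁻¹) ^ l := by
      have := hκm 0
      positivity
    by_contra hcon
    push Not at hcon
    have := mul_neg_of_neg_of_pos hcon h2
    linarith
  -- the bound
  set B : ℕ → ℕ → ℝ := fun l m => ∑ i ∈ Finset.range (l + 1),
    (l.choose i : ℝ) * (C i * ((θ ^ m * κ)⁻¹) ^ i) * ε m (l - i) with hB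
  have hB0 : ∀ l m, 0 ≤ B l m := by
    intro l m
    have := hκm m
    refine Finset.sum_nonneg fun i _ => ?_
    have := hC0 i
    have := hε0 m (l - i)
    positivity
  have hBs : ∀ l, Summable (B l) := by
    intro l
    simp only [hB]
    refine summable_sum fun i _ => ?_
    have := (hS i (l - i)).mul_left ((l.choose i : ℝ) * C i)
    refine this.congr fun m => ?_
    ring
  set H : ℕ → E n → ℂ := fun m z => (ζ m z : ℂ) * (G (m + 1) z - G m z) with hH
  have hζc : ∀ m, ContDiff ℝ ∞ (fun z => (ζ m z : ℂ)) := fun m => contDiff_cx (hζs m)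
  have hHs : ∀ m, ContDiff ℝ ∞ (H m) := fun m => (hζc m).mul ((hG (m + 1)).sub (hG m))
  have hρc : Continuous ρ := hN.smooth.continuous
  have hζnorm : ∀ m l z, ‖iteratedFDeriv ℝ l (fun z => (ζ m z : ℂ)) z‖ ≤
      C l * ((θ ^ m * κ)⁻¹) ^ l := by
    intro m l z
    refine le_trans (le_of_eq ?_) (hζb m l z)
    have := (Complex.ofRealLI).norm_iteratedFDeriv_comp_left (f := ζ m) (x := z) (i := l)
      (n := ∞) ((hζs m).contDiffAt) (by exact_mod_cast le_top)
    exact this
  have hHb : ∀ (l m : ℕ) (z : E n), ‖iteratedFDeriv ℝ l (H m) z‖ ≤ B l m := by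
    intro l m
    have h1 : ∀ z, ρ z < θ ^ m * κ / 2 → ‖iteratedFDeriv ℝ l (H m) z‖ ≤ B l m := by
      intro z hz
      have := norm_iteratedFDeriv_mul_le (𝕜 := ℝ) (f := fun z => (ζ m z : ℂ))
        (g := fun z => G (m + 1) z - G m z) (N := ∞) (n := l) (hζc m)
        ((hG (m + 1)).sub (hG m)) z (by exact_mod_cast le_top)
      refine this.trans ?_
      refine Finset.sum_le_sum fun i _ => ?_
      have e1 := hζnorm m i z
      have e2 := hε m (l - i) z hz
      have := hC0 i
      have := hκm m
      gcongr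
    have hcl : IsClosed {z | ‖iteratedFDeriv ℝ l (H m) z‖ ≤ B l m} := by
      have : Continuous (fun z => ‖iteratedFDeriv ℝ l (H m) z‖) :=
        ((hHs m).continuous_iteratedFDeriv (m := l) (by exact_mod_cast le_top)).norm
      exact isClosed_le this continuous_const
    have h2 : closure {z | ρ z < θ ^ m * κ / 2} ⊆
        {z | ‖iteratedFDeriv ℝ l (H m) z‖ ≤ B l m} :=
      closure_minimal (fun z hz => h1 z hz) hcl
    intro z
    by_cases hz : z ∈ closure {z | ρ z < θ ^ m * κ / 2}
    · exact h2 hz
    · have : H m =ᶠ[𝓝 z] fun _ => 0 := by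
        filter_upwards [isClosed_closure.isOpen_compl.mem_nhds hz] with y hy
        have hy2 : θ ^ m * κ / 2 ≤ ρ y := by
          by_contra hcon
          push Not at hcon
          exact hy (subset_closure hcon)
        simp [hH, hζ0 m y hy2]
      rw [(this.iteratedFDeriv ℝ l).eq_of_nhds]
      have : iteratedFDeriv ℝ l (fun _ : E n => (0 : ℂ)) z = 0 := by
        have := congrFun (iteratedFDeriv_zero_fun (𝕜 := ℝ) (E := E n) (F := ℂ) (n := l)) z
        simpa using this
      rw [this, norm_zero]
      exact hB0 l m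
  -- the sum
  have hT : ContDiff ℝ ∞ (fun z => ∑' m, H m z) := by
    have := contDiff_tsum (𝕜 := ℝ) (N := (⊤ : ℕ∞)) (f := H) (v := fun k => B k) (fun m => hHs m)
      (fun k _ => hBs k) (fun k i x _ => hHb k i x)
    exact this
  have hDT : ∀ (l : ℕ), iteratedFDeriv ℝ l (fun z => ∑' m, H m z) =
      fun z => ∑' m, iteratedFDeriv ℝ l (H m) z := by
    intro l
    exact iteratedFDeriv_tsum (𝕜 := ℝ) (N := (⊤ : ℕ∞)) (f := H) (v := fun k => B k)
      (fun m => hHs m) (fun k _ => hBs k) (fun k i x _ => hHb k i x) (by exact_mod_cast le_top)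
  have hopen : ∀ m z, ρ z < 0 → H m =ᶠ[𝓝 z] fun y => G (m + 1) y - G m y := by
    intro m z hz
    have : ∀ᶠ y in 𝓝 z, ρ y < 0 := (hρc.tendsto z).eventually (gt_mem_nhds hz)
    filter_upwards [this] with y hy
    have h4 : ρ y < θ ^ m * κ / 4 := by
      have := hκm m
      linarith
    simp [hH, hζ1 m y h4]
  refine ⟨fun z => G 0 z + ∑' m, H m z, (hG 0).add hT, ?_, ?_⟩
  · intro z hz
    refine (holo_of_dbar (((hG 0).add hT).differentiable (by simp) z) ?_).differentiableWithinAt
    intro i
    rw [dbar_add ((hG 0).differentiable (by simp) z) (hT.differentiable (by simp) z)]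
    -- dbar of the sum
    have hsum : HasSum (fun m => dbar i (H m) z) (dbar i (fun z => ∑' m, H m z) z) := by
      have h1 : ∀ v : E n, HasSum (fun m => fderiv ℝ (H m) z v)
          (fderiv ℝ (fun z => ∑' m, H m z) z v) := by
        intro v
        have h2 := congrFun (hDT 1) z
        have h3 : Summable fun m => iteratedFDeriv ℝ 1 (H m) z :=
          Summable.of_norm_bounded (hBs 1) (fun m => hHb 1 m z)
        have h4 := h3.hasSum
        rw [← h2] at h4
        have h5 := h4.map (ContinuousMultilinearMap.apply ℝ (fun _ : Fin 1 => E n) ℂ (fun _ => v))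
          (ContinuousMultilinearMap.apply ℝ (fun _ : Fin 1 => E n) ℂ (fun _ => v)).continuous
        simpa [Function.comp_def, iteratedFDeriv_one_apply] using h5
      exact (((h1 _).add ((h1 _).mul_left I)).div_const 2)
    have h6 : ∀ m, dbar i (H m) z = dbar i (G (m + 1)) z - dbar i (G m) z := by
      intro m
      rw [dbar_congr (hopen m z hz) i, dbar_sub ((hG (m + 1)).differentiable (by simp) z)
        ((hG m).differentiable (by simp) z)]
    have h7 := hsum.tendsto_sum_nat
    have h8 : ∀ k : ℕ, ∑ m ∈ Finset.range k, dbar i (H m) z = dbar i (G k) z - dbar i (G 0) z := by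
      intro k
      simp only [h6]
      exact Finset.sum_range_sub (fun m => dbar i (G m) z) k
    simp only [h8] at h7
    have h9 := (hd i z hz).sub_const (dbar i (G 0) z)
    have h10 := tendsto_nhds_unique h7 h9
    rw [h10]
    ring
  · intro l z hz
    have h1 : iteratedFDeriv ℝ l (fun z => G 0 z + ∑' m, H m z) z =
        iteratedFDeriv ℝ l (G 0) z + iteratedFDeriv ℝ l (fun z => ∑' m, H m z) z := by
      have := iteratedFDeriv_add_apply (𝕜 := ℝ) (i := l) (x := z) (f := G 0)
        (g := fun z => ∑' m, H m z) ((hG 0).contDiffAt.of_le (by exact_mod_cast le_top))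
        (hT.contDiffAt.of_le (by exact_mod_cast le_top))
      exact this
    rw [h1, add_sub_cancel_left, congrFun (hDT l) z]
    have h2 : ∀ m, ‖iteratedFDeriv ℝ l (H m) z‖ ≤ ε m l := by
      intro m
      rw [((hopen m z hz).iteratedFDeriv ℝ l).eq_of_nhds]
      refine hε m l z ?_
      have := hκm m
      linarith
    have h3 : Summable fun m => ε m l := by
      simpa using hS 0 l
    exact tsum_of_norm_bounded h3.hasSum h2

end Pool.Agent.DK.H43
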